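import Pool.Agent.Helper82.CF.Par
import Pool.Agent.Helper29.CC.Choice

/-!
The sharp bound for circuits inside a set with bounded representation function.
-/

namespace Pool.Agent.Helper82.CF

open scoped Pointwise
open Pool.Agent.Helper29.CC (rep_mono isCircuit_map)

/-- **Circuits, sharp form.** If `r_A(n) < 2 ^ (k + 1)` for `n ≤ 2 x`, a set of elements of `A` up
to `x` computed by `s` unions and sumsets has at most `(12 (k + 1) (4 k + 3) s) ^ k` elements. -/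
theorem circuits_sharp {A : Set ℕ} {k x : ℕ} (hg : ∀ n ≤ 2 * x, rep A n < 2 ^ (k + 1)) {s : ℕ}
    {S : ℕ → Finset ℤ} (hS : IsCircuit s S) {i : ℕ} (hi : i < s)
    (hA : ∀ z ∈ S i, ∃ a ∈ A, a ≤ x ∧ (a : ℤ) = z) :
    (S i).card ≤ (12 * (k + 1) * (4 * k + 3) * s) ^ k := by
  have hg' : ∀ n, rep {a | a ∈ A ∧ a ≤ x} n < 2 ^ (k + 1) := by
    intro n
    rcases Nat.lt_or_ge (2 * x) n with h | h
    · have h0 : rep {a | a ∈ A ∧ a ≤ x} n = 0 := by
        unfold rep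
        rw [Set.ncard_eq_zero (rep_finite _ n)]
        ext p
        simp only [Set.mem_ofPred_eq, Set.mem_empty_iff_false, iff_false]
        rintro ⟨⟨-, h1⟩, ⟨-, h2⟩, h3⟩
        omega
      rw [h0]
      positivity
    · exact (rep_mono (fun a ha => ha.1) n).trans_lt (hg n h)
  refine circuit_card hS hi ?_
  intro c l hl hc hs
  obtain ⟨n, hn⟩ := cube_rep (A := {a | a ∈ A ∧ a ≤ x}) (c := c) (l := l) (fun z hz => by
    obtain ⟨a, ha, hax, haz⟩ := hA z (hs hz)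
    exact ⟨a, ⟨ha, hax⟩, haz⟩)
  have h2 := hg' n
  rw [hc, hl] at hn
  omega

/-- **Choices, sharp form.** -/
theorem choice_sharp {A : Set ℕ} {k x : ℕ} (hg : ∀ n ≤ 2 * x, rep A n < 2 ^ (k + 1)) {s : ℕ}
    {T : ℕ → Finset (ℤ × ℤ)} (hT : IsCircuit s T) {i : ℕ} (hi : i < s)
    (hA : ∀ z ∈ T i, ∃ a ∈ A, ∃ b ∈ A, a ≤ x ∧ b ≤ x ∧ z = ((a : ℤ), (b : ℤ))) :
    (T i).card ≤ ((12 * (k + 1) * (4 * k + 3) * s) ^ k) ^ 2 := by
  have h1 := circuits_sharp hg (isCircuit_map hT (AddMonoidHom.fst ℤ ℤ)) hi (by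
    intro z hz
    obtain ⟨w, hw, rfl⟩ := Finset.mem_image.1 hz
    obtain ⟨a, ha, b, hb, hax, hbx, rfl⟩ := hA w hw
    exact ⟨a, ha, hax, rfl⟩)
  have h2 := circuits_sharp hg (isCircuit_map hT (AddMonoidHom.snd ℤ ℤ)) hi (by
    intro z hz
    obtain ⟨w, hw, rfl⟩ := Finset.mem_image.1 hz
    obtain ⟨a, ha, b, hb, hax, hbx, rfl⟩ := hA w hw
    exact ⟨b, hb, hbx, rfl⟩)
  have h3 : T i ⊆ ((T i).image (AddMonoidHom.fst ℤ ℤ)) ×ˢ ((T i).image (AddMonoidHom.snd ℤ ℤ)) := by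
    intro z hz
    rw [Finset.mem_product]
    exact ⟨Finset.mem_image_of_mem _ hz, Finset.mem_image_of_mem _ hz⟩
  calc (T i).card ≤ _ := Finset.card_le_card h3
    _ = _ := Finset.card_product _ _
    _ ≤ _ := Nat.mul_le_mul h1 h2
    _ = _ := by ring

/-- every `n` in `[t, x)` has its chosen representation in the circuit -/
theorem cover_sharp {A : Set ℕ} {k t x : ℕ} (hg : ∀ n ≤ 2 * x, rep A n < 2 ^ (k + 1)) {s : ℕ}
    {T : ℕ → Finset (ℤ × ℤ)} (hT : IsCircuit s T) {i : ℕ} (hi : i < s)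
    (hA : ∀ z ∈ T i, ∃ a ∈ A, ∃ b ∈ A, a ≤ x ∧ b ≤ x ∧ z = ((a : ℤ), (b : ℤ)))
    (hcov : ∀ n : ℕ, t ≤ n → n < x → ∃ z ∈ T i, z.1 + z.2 = (n : ℤ)) :
    x - t ≤ ((12 * (k + 1) * (4 * k + 3) * s) ^ k) ^ 2 := by
  refine le_trans ?_ (choice_sharp hg hT hi hA)
  have h1 : (Finset.Ico t x).image (fun n : ℕ => (n : ℤ)) ⊆ (T i).image (fun z => z.1 + z.2) := by
    intro w hw
    obtain ⟨n, hn, rfl⟩ := Finset.mem_image.1 hw
    rw [Finset.mem_Ico] at hn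
    obtain ⟨z, hz, hzn⟩ := hcov n hn.1 hn.2
    exact Finset.mem_image.2 ⟨z, hz, hzn⟩
  have h2 := (Finset.card_le_card h1).trans Finset.card_image_le
  rwa [Finset.card_image_of_injective _ Nat.cast_injective, Nat.card_Ico] at h2

end Pool.Agent.Helper82.CF
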