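import Mathlib

/-!
Sumset circuits: a finite subset of an abelian group computed from singletons by `s` unions and
sumsets and with more than `(3 s) ^ k * 18 ^ (k ^ 2)` elements contains a proper Hilbert cube
of dimension `k + 1`.
-/

namespace Pool.Agent.Helper82.CF

open scoped Pointwise

variable {G : Type*} [AddCommGroup G] [DecidableEq G]

/-- `S 0, S 1, ..., S (s-1)` is a circuit with `s` gates: each `S i` is a singleton, or the union
or the sumset of two earlier sets. -/
def IsCircuit (s : ℕ) (S : ℕ → Finset G) : Prop :=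
  ∀ i < s, (∃ t, S i = {t}) ∨ (∃ j < i, ∃ k < i, S i = S j ∪ S k) ∨
    (∃ j < i, ∃ k < i, S i = S j + S k)

/-- the kinds of gates -/
inductive Gate : Type
  | leaf : Gate
  | un (j k : ℕ) : Gate
  | sum (j k : ℕ) : Gate

/-- the gate `i` of the circuit is of kind `d` (leaves may be empty) -/
def Fits (S : ℕ → Finset G) (i : ℕ) : Gate → Prop
  | .leaf => (S i).card ≤ 1
  | .un j k => j < i ∧ k < i ∧ S i = S j ∪ S k
  | .sum j k => j < i ∧ k < i ∧ S i = S j + S k

theorem IsCircuit.exists_fits {s : ℕ} {S : ℕ → Finset G} (hS : IsCircuit s S) :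
    ∃ d : ℕ → Gate, ∀ i < s, Fits S i (d i) := by
  have h : ∀ i < s, ∃ d : Gate, Fits S i d := by
    intro i hi
    rcases hS i hi with ⟨t, ht⟩ | ⟨j, hj, k, hk, h⟩ | ⟨j, hj, k, hk, h⟩
    · exact ⟨.leaf, by simp [Fits, ht]⟩
    · exact ⟨.un j k, hj, hk, h⟩
    · exact ⟨.sum j k, hj, hk, h⟩
  have : Nonempty Gate := ⟨.leaf⟩
  choose! d hd using h
  exact ⟨d, hd⟩

theorem card_singleton_add (c : G) (Q : Finset G) : ({c} + Q).card = Q.card := by
  rw [Finset.singleton_add]
  exact Finset.card_vadd_finset c Q

/-! ### Boxes: sums of `k` sets with more than `m` elements -/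

/-- `S` contains a translate of a sum of `k` sets with more than `m` elements each. -/
def HasBox (m : ℕ) (S : Finset G) (k : ℕ) : Prop :=
  ∃ c : G, ∃ l : List (Finset G), l.length = k ∧ (∀ B ∈ l, m < B.card) ∧ {c} + l.sum ⊆ S

theorem hasBox_one {m : ℕ} {S : Finset G} (h : m < S.card) : HasBox m S 1 := by
  refine ⟨0, [S], rfl, by simpa using h, ?_⟩
  rw [Finset.singleton_zero, zero_add, List.sum_singleton]

theorem HasBox.succ {m k : ℕ} {T S' S : Finset G} (h : HasBox m T k) (h' : m < S'.card)
    (hs : T + S' ⊆ S) : HasBox m S (k + 1) := by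
  obtain ⟨c, l, hk, hl, hT⟩ := h
  refine ⟨c, S' :: l, by simp [hk], ?_, ?_⟩
  · intro B hB
    rcases List.mem_cons.1 hB with rfl | hB
    · exact h'
    · exact hl B hB
  · rw [List.sum_cons, show {c} + (S' + l.sum) = ({c} + l.sum) + S' by abel]
    exact (Finset.add_subset_add_right hT).trans hs

/-! ### Contexts -/

/-- the sums of the contexts in which the gate `p` is used by the gate `h` -/
noncomputable def ctx (d : ℕ → Gate) (S : ℕ → Finset G) (p : ℕ) (h : ℕ) : Finset G :=
  if h = p then {0} else
    match d h with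
    | .leaf => ∅
    | .un j k => if _hjk : j < h ∧ k < h then ctx d S p j ∪ ctx d S p k else ∅
    | .sum j k => if _hjk : j < h ∧ k < h then
        (ctx d S p j + S k) ∪ (S j + ctx d S p k) else ∅
termination_by h
decreasing_by
  · exact _hjk.1
  · exact _hjk.2
  · exact _hjk.1
  · exact _hjk.2

theorem ctx_self (d : ℕ → Gate) (S : ℕ → Finset G) (p : ℕ) : ctx d S p p = {0} := by
  rw [ctx, if_pos rfl]

theorem ctx_leaf {d : ℕ → Gate} {S : ℕ → Finset G} {p h : ℕ} (hp : h ≠ p) (hd : d h = .leaf) :
    ctx d S p h = ∅ := by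
  rw [ctx, if_neg hp, hd]

theorem ctx_un {d : ℕ → Gate} {S : ℕ → Finset G} {p h j k : ℕ} (hp : h ≠ p)
    (hd : d h = .un j k) (hj : j < h) (hk : k < h) :
    ctx d S p h = ctx d S p j ∪ ctx d S p k := by
  rw [ctx, if_neg hp, hd]
  simp only
  rw [dif_pos ⟨hj, hk⟩]

theorem ctx_sum {d : ℕ → Gate} {S : ℕ → Finset G} {p h j k : ℕ} (hp : h ≠ p)
    (hd : d h = .sum j k) (hj : j < h) (hk : k < h) :
    ctx d S p h = (ctx d S p j + S k) ∪ (S j + ctx d S p k) := by
  rw [ctx, if_neg hp, hd]
  simp only
  rw [dif_pos ⟨hj, hk⟩]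

/-- a context of `p` in `h` applied to `S p` gives elements of `S h` -/
theorem ctx_add {s : ℕ} {d : ℕ → Gate} {S : ℕ → Finset G} (hd : ∀ i < s, Fits S i (d i))
    (p : ℕ) : ∀ h < s, ctx d S p h + S p ⊆ S h := by
  intro h
  induction h using Nat.strong_induction_on with
  | _ h ih =>
    intro hs
    by_cases hp : h = p
    · subst hp
      rw [ctx_self, Finset.singleton_zero, zero_add]
    · have hf := hd h hs
      cases hdh : d h with
      | leaf =>
        rw [ctx_leaf hp hdh, Finset.empty_add]
        exact Finset.empty_subset _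
      | un j k =>
        rw [hdh] at hf
        obtain ⟨hj, hk, e⟩ := hf
        rw [ctx_un hp hdh hj hk, e, Finset.union_add]
        exact Finset.union_subset_union (ih j hj (hj.trans hs)) (ih k hk (hk.trans hs))
      | sum j k =>
        rw [hdh] at hf
        obtain ⟨hj, hk, e⟩ := hf
        rw [ctx_sum hp hdh hj hk, e, Finset.union_add]
        refine Finset.union_subset ?_ ?_
        · rw [show ctx d S p j + S k + S p = (ctx d S p j + S p) + S k by abel]
          exact Finset.add_subset_add_right (ih j hj (hj.trans hs))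
        · rw [add_assoc]
          exact Finset.add_subset_add_left (ih k hk (hk.trans hs))

/-- the circuit computing the contexts -/
noncomputable def aux (d : ℕ → Gate) (S : ℕ → Finset G) (p s : ℕ) (i : ℕ) : Finset G :=
  if i < s then S i
  else if (i - s) % 3 = 2 then ctx d S p ((i - s) / 3)
  else match d ((i - s) / 3) with
    | .leaf => ∅
    | .un _ _ => ∅
    | .sum j k => if (i - s) % 3 = 0 then ctx d S p j + S k else S j + ctx d S p k

theorem aux_lt {d : ℕ → Gate} {S : ℕ → Finset G} {p s i : ℕ} (h : i < s) :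
    aux d S p s i = S i := by
  rw [aux, if_pos h]

theorem aux_ctx (d : ℕ → Gate) (S : ℕ → Finset G) (p s h : ℕ) :
    aux d S p s (s + 3 * h + 2) = ctx d S p h := by
  rw [aux, if_neg (by omega), if_pos (by omega)]
  congr 1
  omega

theorem aux_zero {d : ℕ → Gate} {S : ℕ → Finset G} {p s h j k : ℕ} (hd : d h = .sum j k) :
    aux d S p s (s + 3 * h) = ctx d S p j + S k := by
  have e : (s + 3 * h - s) / 3 = h := by omega
  rw [aux, if_neg (by omega), if_neg (by omega), e, hd]
  simp only
  rw [if_pos (by omega)]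

theorem aux_one {d : ℕ → Gate} {S : ℕ → Finset G} {p s h j k : ℕ} (hd : d h = .sum j k) :
    aux d S p s (s + 3 * h + 1) = S j + ctx d S p k := by
  have e : (s + 3 * h + 1 - s) / 3 = h := by omega
  rw [aux, if_neg (by omega), if_neg (by omega), e, hd]
  simp only
  rw [if_neg (by omega)]

theorem aux_fits {s : ℕ} {d : ℕ → Gate} {S : ℕ → Finset G} (hd : ∀ i < s, Fits S i (d i))
    (p : ℕ) : ∃ d' : ℕ → Gate, ∀ i < 4 * s, Fits (aux d S p s) i (d' i) := by
  have key : ∀ i < 4 * s, ∃ g : Gate, Fits (aux d S p s) i g := by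
    intro i hi
    by_cases h : i < s
    · have hf := hd i h
      cases hdi : d i with
      | leaf =>
        rw [hdi] at hf
        refine ⟨.leaf, ?_⟩
        simp only [Fits, aux_lt h]
        exact hf
      | un j k =>
        rw [hdi] at hf
        obtain ⟨hj, hk, e⟩ := hf
        refine ⟨.un j k, hj, hk, ?_⟩
        rw [aux_lt h, aux_lt (hj.trans h), aux_lt (hk.trans h), e]
      | sum j k =>
        rw [hdi] at hf
        obtain ⟨hj, hk, e⟩ := hf
        refine ⟨.sum j k, hj, hk, ?_⟩
        rw [aux_lt h, aux_lt (hj.trans h), aux_lt (hk.trans h), e]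
    · obtain ⟨q, r, hr, rfl⟩ : ∃ q r, r < 3 ∧ i = s + 3 * q + r :=
        ⟨(i - s) / 3, (i - s) % 3, Nat.mod_lt _ (by norm_num), by omega⟩
      have hq : q < s := by omega
      have hf := hd q hq
      rcases (show r = 0 ∨ r = 1 ∨ r = 2 by omega) with rfl | rfl | rfl
      · cases hdq : d q with
        | leaf =>
          refine ⟨.leaf, ?_⟩
          have : aux d S p s (s + 3 * q) = ∅ := by
            have e : (s + 3 * q - s) / 3 = q := by omega
            rw [aux, if_neg (by omega), if_neg (by omega), e, hdq]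
          simp [Fits, this]
        | un j k =>
          refine ⟨.leaf, ?_⟩
          have : aux d S p s (s + 3 * q) = ∅ := by
            have e : (s + 3 * q - s) / 3 = q := by omega
            rw [aux, if_neg (by omega), if_neg (by omega), e, hdq]
          simp [Fits, this]
        | sum j k =>
          rw [hdq] at hf
          obtain ⟨hj, hk, e⟩ := hf
          refine ⟨.sum (s + 3 * j + 2) k, by omega, by omega, ?_⟩
          rw [aux_ctx, aux_lt (hk.trans hq)]
          exact aux_zero hdq
      · cases hdq : d q with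
        | leaf =>
          refine ⟨.leaf, ?_⟩
          have : aux d S p s (s + 3 * q + 1) = ∅ := by
            have e : (s + 3 * q + 1 - s) / 3 = q := by omega
            rw [aux, if_neg (by omega), if_neg (by omega), e, hdq]
          simp [Fits, this]
        | un j k =>
          refine ⟨.leaf, ?_⟩
          have : aux d S p s (s + 3 * q + 1) = ∅ := by
            have e : (s + 3 * q + 1 - s) / 3 = q := by omega
            rw [aux, if_neg (by omega), if_neg (by omega), e, hdq]
          simp [Fits, this]
        | sum j k =>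
          rw [hdq] at hf
          obtain ⟨hj, hk, e⟩ := hf
          refine ⟨.sum j (s + 3 * k + 2), by omega, by omega, ?_⟩
          rw [aux_ctx, aux_lt (hj.trans hq)]
          exact aux_one hdq
      · by_cases hp : q = p
        · refine ⟨.leaf, ?_⟩
          subst hp
          simp only [Fits, aux_ctx, ctx_self]
          simp
        · cases hdq : d q with
          | leaf =>
            refine ⟨.leaf, ?_⟩
            simp only [Fits, aux_ctx, ctx_leaf hp hdq]
            simp
          | un j k =>
            rw [hdq] at hf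
            obtain ⟨hj, hk, e⟩ := hf
            refine ⟨.un (s + 3 * j + 2) (s + 3 * k + 2), by omega, by omega, ?_⟩
            rw [aux_ctx, aux_ctx, aux_ctx]
            exact ctx_un hp hdq hj hk
          | sum j k =>
            rw [hdq] at hf
            obtain ⟨hj, hk, e⟩ := hf
            refine ⟨.un (s + 3 * q) (s + 3 * q + 1), by omega, by omega, ?_⟩
            rw [aux_ctx, aux_zero hdq, aux_one hdq]
            exact ctx_sum hp hdq hj hk
  have : Nonempty Gate := ⟨.leaf⟩
  choose! d' hd' using key
  exact ⟨d', hd'⟩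

/-! ### The recursion -/

/-- the pieces: parts of the gate `p` that come from inputs with at most `m` elements -/
theorem exists_stop {s : ℕ} {d : ℕ → Gate} {S : ℕ → Finset G} (hd : ∀ i < s, Fits S i (d i))
    {m : ℕ} (hm : 1 ≤ m) : ∀ p < s, m < (S p).card → ∃ P : Finset G, P.card ≤ 2 * m ^ 2 ∧
      ∀ e ∈ S p, e ∈ P ∨ ∃ j < p, ∃ c : G, m < (S j).card ∧ e - c ∈ S j ∧
        ∀ p' : ℕ, {c} + ctx d S p' j ⊆ ctx d S p' p ∨ p' = p := by
  intro p hp hbig
  have hf := hd p hp
  cases hdp : d p with
  | leaf =>
    rw [hdp] at hf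
    simp only [Fits] at hf
    omega
  | un j k =>
    rw [hdp] at hf
    obtain ⟨hj, hk, e⟩ := hf
    refine ⟨(if (S j).card ≤ m then S j else ∅) ∪ (if (S k).card ≤ m then S k else ∅), ?_, ?_⟩
    · refine (Finset.card_union_le _ _).trans ?_
      have b1 : (if (S j).card ≤ m then S j else ∅ : Finset G).card ≤ m := by
        split_ifs with h
        · exact h
        · simp
      have b2 : (if (S k).card ≤ m then S k else ∅ : Finset G).card ≤ m := by
        split_ifs with h
        · exact h
        · simp
      nlinarith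
    · intro x hx
      rw [e, Finset.mem_union] at hx
      rcases hx with hx | hx
      · by_cases h : (S j).card ≤ m
        · left
          rw [Finset.mem_union, if_pos h]
          exact Or.inl hx
        · right
          refine ⟨j, hj, 0, by omega, by simpa using hx, fun p' => ?_⟩
          by_cases hp' : p = p'
          · exact Or.inr hp'.symm
          · left
            rw [Finset.singleton_zero, zero_add, ctx_un hp' hdp hj hk]
            exact Finset.subset_union_left
      · by_cases h : (S k).card ≤ m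
        · left
          rw [Finset.mem_union, if_pos h]
          exact Or.inr hx
        · right
          refine ⟨k, hk, 0, by omega, by simpa using hx, fun p' => ?_⟩
          by_cases hp' : p = p'
          · exact Or.inr hp'.symm
          · left
            rw [Finset.singleton_zero, zero_add, ctx_un hp' hdp hj hk]
            exact Finset.subset_union_right
  | sum j k =>
    rw [hdp] at hf
    obtain ⟨hj, hk, e⟩ := hf
    by_cases h1 : m < (S j).card
    · refine ⟨∅, by simp, fun x hx => Or.inr ?_⟩
      rw [e, Finset.mem_add] at hx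
      obtain ⟨y, hy, z, hz, rfl⟩ := hx
      refine ⟨j, hj, z, h1, by simpa using hy, fun p' => ?_⟩
      by_cases hp' : p = p'
      · exact Or.inr hp'.symm
      · left
        rw [ctx_sum hp' hdp hj hk, add_comm]
        exact (Finset.add_subset_add_left (by simpa using hz)).trans Finset.subset_union_left
    · by_cases h2 : m < (S k).card
      · refine ⟨∅, by simp, fun x hx => Or.inr ?_⟩
        rw [e, Finset.mem_add] at hx
        obtain ⟨y, hy, z, hz, rfl⟩ := hx
        refine ⟨k, hk, y, h2, by simpa using hz, fun p' => ?_⟩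
        by_cases hp' : p = p'
        · exact Or.inr hp'.symm
        · left
          rw [ctx_sum hp' hdp hj hk]
          exact (Finset.add_subset_add_right (by simpa using hy)).trans
            Finset.subset_union_right
      · refine ⟨S p, ?_, fun x hx => Or.inl hx⟩
        rw [e]
        refine Finset.card_add_le.trans ?_
        have := Nat.mul_le_mul (show (S j).card ≤ m by omega) (show (S k).card ≤ m by omega)
        nlinarith

/-- **The recursion.**  A gate without a sum of `k + 1` sets of more than `m` elements has at most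
`m (2 m ^ 2 s) ^ k 2 ^ (k (k - 1))` elements. -/
theorem card_le {m : ℕ} (hm : 1 ≤ m) (k : ℕ) :
    ∀ (s : ℕ) (d : ℕ → Gate) (S : ℕ → Finset G), (∀ i < s, Fits S i (d i)) → ∀ g < s,
      ¬ HasBox m (S g) (k + 1) → 2 ^ k * (S g).card ≤ m * (2 * m ^ 2 * s) ^ k * 2 ^ (k ^ 2) := by
  induction k with
  | zero =>
    intro s d S hd g hg h
    have : ¬ m < (S g).card := fun h1 => h (hasBox_one h1)
    simpa using this
  | succ k ih =>
    intro s d S hd g hg hno
    have hs : 1 ≤ s := by omega
    by_cases hbig : m < (S g).card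
    swap
    · have h1 : 1 ≤ (m ^ 2 * s) ^ (k + 1) := Nat.one_le_pow _ _ (Nat.mul_pos (by positivity) hs)
      have h2 : 1 ≤ 2 ^ ((k + 1) ^ 2) := Nat.one_le_pow _ _ (by norm_num)
      calc 2 ^ (k + 1) * (S g).card ≤ 2 ^ (k + 1) * m := Nat.mul_le_mul_left _ (by omega)
        _ = m * (2 ^ (k + 1) * 1) * 1 := by ring
        _ ≤ m * (2 ^ (k + 1) * (m ^ 2 * s) ^ (k + 1)) * 2 ^ ((k + 1) ^ 2) :=
            Nat.mul_le_mul (Nat.mul_le_mul_left _ (Nat.mul_le_mul_left _ h1)) h2
        _ = _ := by rw [← mul_pow]; ring
    · have hstop := exists_stop hd hm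
      choose! P hP1 hP2 using hstop
      -- every element is a context applied to an element of a piece
      have key : ∀ h < s, m < (S h).card → ∀ e ∈ S h,
          ∃ p ≤ h, m < (S p).card ∧ ∃ c ∈ ctx d S p h, ∃ e' ∈ P p, e = c + e' := by
        intro h
        induction h using Nat.strong_induction_on with
        | _ h ihh =>
          intro hh hbh e he
          rcases hP2 h hh hbh e he with h1 | ⟨j, hj, c, hbj, hej, hcj⟩
          · exact ⟨h, le_rfl, hbh, 0, by rw [ctx_self]; simp, e, h1, by simp⟩
          · obtain ⟨p, hp, hbp, c', hc', e', he', heq⟩ := ihh j hj (hj.trans hh) hbj _ hej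
            refine ⟨p, by omega, hbp, c + c', ?_, e', he', ?_⟩
            · rcases hcj p with h2 | h2
              · exact h2 (Finset.add_mem_add (Finset.mem_singleton_self _) hc')
              · omega
            · rw [add_assoc, ← heq]; abel
      have hsub : S g ⊆ ((Finset.range s).filter (fun p => m < (S p).card)).biUnion
          (fun p => ctx d S p g + P p) := by
        intro e he
        obtain ⟨p, hp, hbp, c, hc, e', he', rfl⟩ := key g hg hbig e he
        rw [Finset.mem_biUnion]
        exact ⟨p, by simp [hbp]; omega, Finset.add_mem_add hc he'⟩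
      -- the contexts are computed by `4 s` gates and have no box of dimension `k + 1`
      have hctx : ∀ p < s, m < (S p).card →
          2 ^ k * (ctx d S p g).card ≤ m * (2 * m ^ 2 * (4 * s)) ^ k * 2 ^ (k ^ 2) := by
        intro p hp hbp
        obtain ⟨d', hd'⟩ := aux_fits hd p
        have h1 := ih (4 * s) d' (aux d S p s) hd' (s + 3 * g + 2) (by omega)
        rw [aux_ctx] at h1
        exact h1 (fun hbox => hno (hbox.succ hbp (ctx_add hd p g hg)))
      have hcard : 2 ^ k * (S g).card ≤
          s * (m * (2 * m ^ 2 * (4 * s)) ^ k * 2 ^ (k ^ 2) * (2 * m ^ 2)) := by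
        calc 2 ^ k * (S g).card
            ≤ 2 ^ k * ∑ p ∈ (Finset.range s).filter (fun p => m < (S p).card),
                (ctx d S p g + P p).card :=
              Nat.mul_le_mul_left _ ((Finset.card_le_card hsub).trans Finset.card_biUnion_le)
          _ = ∑ p ∈ (Finset.range s).filter (fun p => m < (S p).card),
                2 ^ k * (ctx d S p g + P p).card := by rw [Finset.mul_sum]
          _ ≤ ∑ p ∈ (Finset.range s).filter (fun p => m < (S p).card),
                (m * (2 * m ^ 2 * (4 * s)) ^ k * 2 ^ (k ^ 2) * (2 * m ^ 2)) := by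
              refine Finset.sum_le_sum fun p hp => ?_
              rw [Finset.mem_filter, Finset.mem_range] at hp
              calc 2 ^ k * (ctx d S p g + P p).card
                  ≤ 2 ^ k * ((ctx d S p g).card * (P p).card) :=
                    Nat.mul_le_mul_left _ Finset.card_add_le
                _ = (2 ^ k * (ctx d S p g).card) * (P p).card := by ring
                _ ≤ _ := Nat.mul_le_mul (hctx p hp.1 hp.2) (hP1 p hp.1 hp.2)
          _ = ((Finset.range s).filter (fun p => m < (S p).card)).card *
                (m * (2 * m ^ 2 * (4 * s)) ^ k * 2 ^ (k ^ 2) * (2 * m ^ 2)) := by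
              rw [Finset.sum_const, smul_eq_mul]
          _ ≤ _ := Nat.mul_le_mul_right _ ((Finset.card_filter_le _ _).trans
              (by rw [Finset.card_range]))
      calc 2 ^ (k + 1) * (S g).card = 2 * (2 ^ k * (S g).card) := by ring
        _ ≤ 2 * (s * (m * (2 * m ^ 2 * (4 * s)) ^ k * 2 ^ (k ^ 2) * (2 * m ^ 2))) :=
            Nat.mul_le_mul_left _ hcard
        _ = m * (2 * m ^ 2 * s) ^ (k + 1) * (4 ^ k * 2 ^ (k ^ 2) * 2) := by
            rw [show 2 * m ^ 2 * (4 * s) = (2 * m ^ 2 * s) * 4 by ring, mul_pow, pow_succ]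
            ring
        _ = m * (2 * m ^ 2 * s) ^ (k + 1) * 2 ^ ((k + 1) ^ 2) := by
            congr 1
            rw [show (4 : ℕ) = 2 ^ 2 by norm_num, ← pow_mul, ← pow_add, ← pow_succ]
            congr 1; ring

/-! ### Proper cubes -/

/-- the sum of the two-element sets `{0, h}`, `h ∈ l` -/
noncomputable def cube (l : List G) : Finset G := (l.map (fun h => ({0, h} : Finset G))).sum

theorem cube_nil : cube ([] : List G) = {0} := rfl

theorem cube_cons (h : G) (l : List G) : cube (h :: l) = {0, h} + cube l := by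
  simp [cube]

theorem cube_nonempty (l : List G) : (cube l).Nonempty := by
  induction l with
  | nil => rw [cube_nil]; exact Finset.singleton_nonempty _
  | cons h l ih =>
    rw [cube_cons]
    exact Finset.Nonempty.add (by simp) ih

theorem cube_symm (l : List G) : ∀ a ∈ cube l, l.sum - a ∈ cube l := by
  induction l with
  | nil => simp [cube_nil]
  | cons h l h2 =>
    rw [cube_cons]
    intro a ha
    rw [Finset.mem_add] at ha
    obtain ⟨x, hx, y, hy, rfl⟩ := ha
    rw [List.sum_cons]
    have h5 := h2 y hy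
    simp only [Finset.mem_insert, Finset.mem_singleton] at hx
    rcases hx with rfl | rfl
    · rw [Finset.mem_add]
      exact ⟨h, by simp, l.sum - y, h5, by abel⟩
    · rw [Finset.mem_add]
      exact ⟨0, by simp, l.sum - y, h5, by abel⟩

/-- the difference set of a cube has at most `3 ^ k` elements -/
theorem cube_sub_card (l : List G) : (cube l - cube l).card ≤ 3 ^ l.length := by
  induction l with
  | nil => simp [cube_nil]
  | cons h l ih =>
    have h1 : cube (h :: l) - cube (h :: l) ⊆ ({0, h, -h} : Finset G) + (cube l - cube l) := by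
      intro x hx
      rw [cube_cons] at hx
      simp only [Finset.mem_sub, Finset.mem_add, Finset.mem_insert, Finset.mem_singleton] at hx
      obtain ⟨y, ⟨a, ha, b, hb, rfl⟩, z, ⟨a', ha', b', hb', rfl⟩, rfl⟩ := hx
      rw [Finset.mem_add]
      refine ⟨a - a', ?_, b - b', Finset.sub_mem_sub hb hb', by abel⟩
      rcases ha with rfl | rfl <;> rcases ha' with rfl | rfl <;> simp
    refine (Finset.card_le_card h1).trans (Finset.card_add_le.trans ?_)
    rw [List.length_cons, pow_succ, mul_comm]
    exact Nat.mul_le_mul ih Finset.card_le_three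

/-- **Proper cubes in boxes.** -/
theorem exists_cube {m : ℕ} (l : List (Finset G)) (hl : ∀ B ∈ l, m < B.card)
    (hm : 3 ^ (l.length - 1) ≤ m) :
    ∃ c : G, ∃ h : List G, h.length = l.length ∧ (cube h).card = 2 ^ l.length ∧
      {c} + cube h ⊆ l.sum := by
  induction l with
  | nil => exact ⟨0, [], rfl, by simp [cube_nil], by simp [cube_nil]⟩
  | cons B l ih =>
    obtain ⟨c, h, h1, h2, h3⟩ := ih (fun x hx => hl x (List.mem_cons_of_mem _ hx))
      (le_trans (Nat.pow_le_pow_right (by norm_num) (by simp)) hm)
    have hB : m < B.card := hl B List.mem_cons_self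
    have hD : (cube h - cube h).card < B.card := by
      have := cube_sub_card h
      rw [h1] at this
      simp only [List.length_cons, Nat.add_sub_cancel] at hm
      omega
    obtain ⟨b, hb⟩ : B.Nonempty := Finset.card_pos.1 (by omega)
    obtain ⟨x, hx, hxD⟩ : ∃ x ∈ B, x - b ∉ cube h - cube h := by
      by_contra hcon
      push Not at hcon
      have h4 : B.card ≤ (cube h - cube h).card :=
        Finset.card_le_card_of_injOn (fun x => x - b) (fun x hx => hcon x hx)
          (fun x _ y _ hxy => sub_left_injective hxy)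
      omega
    refine ⟨b + c, (x - b) :: h, by simp [h1], ?_, ?_⟩
    · have e1 : cube ((x - b) :: h) = cube h ∪ ({x - b} + cube h) := by
        rw [cube_cons, Finset.insert_eq, Finset.union_add, Finset.singleton_zero, zero_add]
      rw [e1, Finset.card_union_of_disjoint, card_singleton_add, h2, List.length_cons, pow_succ]
      · ring
      · rw [Finset.disjoint_left]
        intro y hy hy'
        rw [Finset.mem_add] at hy'
        obtain ⟨u, hu, z, hz, rfl⟩ := hy'
        rw [Finset.mem_singleton] at hu
        subst hu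
        apply hxD
        rw [Finset.mem_sub]
        exact ⟨x - b + z, hy, z, hz, by abel⟩
    · rw [cube_cons, List.sum_cons]
      intro y hy
      simp only [Finset.mem_add, Finset.mem_insert, Finset.mem_singleton] at hy
      obtain ⟨_, rfl, _, ⟨u, hu, v, hv, rfl⟩, rfl⟩ := hy
      have h5 : c + v ∈ l.sum := h3 (Finset.add_mem_add (Finset.mem_singleton_self _) hv)
      rw [Finset.mem_add]
      rcases hu with rfl | rfl
      · exact ⟨b, hb, c + v, h5, by abel⟩
      · exact ⟨x, hx, c + v, h5, by abel⟩

/-- **Circuits.**  A set computed by `s` gates and without a proper Hilbert cube of dimension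
`k + 1` has at most `(3 s) ^ k * 18 ^ (k ^ 2)` elements. -/
theorem exists_cube_of_circuit {s k : ℕ} {S : ℕ → Finset G} (hS : IsCircuit s S) {i : ℕ}
    (hi : i < s) (hcard : (3 * s) ^ k * 18 ^ (k ^ 2) < (S i).card) :
    ∃ c : G, ∃ h : List G, h.length = k + 1 ∧ (cube h).card = 2 ^ (k + 1) ∧
      {c} + cube h ⊆ S i := by
  have hm : 1 ≤ 3 ^ k := Nat.one_le_pow _ _ (by norm_num)
  obtain ⟨d, hd⟩ := hS.exists_fits
  have hdim : HasBox (3 ^ k) (S i) (k + 1) := by
    by_contra hno
    have h1 := card_le hm k s d S hd i hi hno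
    have h2 : 3 ^ k * (2 * (3 ^ k) ^ 2 * s) ^ k * 2 ^ (k ^ 2) =
        2 ^ k * ((3 * s) ^ k * 18 ^ (k ^ 2)) := by
      rw [show (18 : ℕ) = 3 ^ 2 * 2 by norm_num, mul_pow (3 ^ 2) 2, ← pow_mul, ← pow_mul,
        mul_pow 3 s, mul_pow, mul_pow, ← pow_mul, show k * 2 * k = 2 * k ^ 2 by ring]
      ring
    rw [h2] at h1
    have h3 := Nat.le_of_mul_le_mul_left h1 (by positivity)
    omega
  obtain ⟨c, l, hl, hB, hsub⟩ := hdim
  obtain ⟨c', h, h1, h2, h3⟩ := exists_cube l hB (by rw [hl]; simp)
  rw [hl] at h1 h2
  refine ⟨c + c', h, h1, h2, ?_⟩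
  rw [← Finset.singleton_add_singleton, add_assoc]
  exact (Finset.add_subset_add_left h3).trans hsub

/-! ### Representation functions -/

/-- `r_A(n)`: the number of ordered pairs `(a, b) ∈ A × A` with `a + b = n`. -/
noncomputable def rep (A : Set ℕ) (n : ℕ) : ℕ :=
  ({p : ℕ × ℕ | p.1 ∈ A ∧ p.2 ∈ A ∧ p.1 + p.2 = n} : Set (ℕ × ℕ)).ncard

theorem rep_finite (A : Set ℕ) (n : ℕ) :
    ({p : ℕ × ℕ | p.1 ∈ A ∧ p.2 ∈ A ∧ p.1 + p.2 = n} : Set (ℕ × ℕ)).Finite := by
  refine ((Finset.range (n + 1) ×ˢ Finset.range (n + 1)).finite_toSet).subset ?_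
  rintro ⟨a, b⟩ ⟨-, -, h⟩
  simp only [Finset.coe_product, Set.mem_prod, Finset.coe_range, Set.mem_Iio]
  simp only at h
  omega

/-- a symmetric finite set inside `A` gives representations -/
theorem card_le_rep {A : Set ℕ} {P : Finset ℤ} {n : ℤ} (hP : ∀ z ∈ P, ∃ a ∈ A, (a : ℤ) = z)
    (hsym : ∀ a ∈ P, n - a ∈ P) (hne : P.Nonempty) : P.card ≤ rep A n.toNat := by
  obtain ⟨z, hz⟩ := hne
  have hn : 0 ≤ n := by
    obtain ⟨a, -, ha⟩ := hP z hz
    obtain ⟨b, -, hb⟩ := hP _ (hsym z hz)
    omega
  have h1 : (P.image (fun z => (z.toNat, (n - z).toNat))).card = P.card := by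
    refine Finset.card_image_of_injOn ?_
    intro x hx y hy hxy
    obtain ⟨a, -, ha⟩ := hP x hx
    obtain ⟨b, -, hb⟩ := hP y hy
    have := congrArg Prod.fst hxy
    simp only at this
    omega
  rw [← h1, ← Set.ncard_coe_finset]
  refine Set.ncard_le_ncard ?_ (rep_finite A _)
  intro p hp
  simp only [Finset.coe_image, Set.mem_image, Finset.mem_coe] at hp
  obtain ⟨z, hz, rfl⟩ := hp
  obtain ⟨a, ha, ha'⟩ := hP z hz
  obtain ⟨b, hb, hb'⟩ := hP _ (hsym z hz)
  have e1 : z.toNat = a := by omega
  have e2 : (n - z).toNat = b := by omega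
  refine ⟨?_, ?_, ?_⟩
  · simp only [e1]; exact ha
  · simp only [e2]; exact hb
  · simp only [e1, e2]; omega

theorem cube_rep {A : Set ℕ} {c : ℤ} {l : List ℤ}
    (hA : ∀ z ∈ {c} + cube l, ∃ a ∈ A, (a : ℤ) = z) : ∃ n, (cube l).card ≤ rep A n := by
  refine ⟨(2 * c + l.sum).toNat, ?_⟩
  rw [← card_singleton_add c]
  refine card_le_rep hA ?_ ?_
  · intro a ha
    rw [Finset.mem_add] at ha
    obtain ⟨y, hy, z, hz, rfl⟩ := ha
    rw [Finset.mem_singleton] at hy
    subst hy
    rw [Finset.mem_add]
    exact ⟨y, Finset.mem_singleton_self _, l.sum - z, cube_symm l z hz, by ring⟩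
  · exact (Finset.singleton_nonempty _).add (cube_nonempty l)

/-- **CIR.**  If `r_A < 2 ^ (k + 1)`, a subset of `A` computed by `s` unions and sumsets has at
most `(3 s) ^ k * 18 ^ (k ^ 2)` elements. -/
theorem circuits {A : Set ℕ} {k : ℕ} (hg : ∀ n, rep A n < 2 ^ (k + 1)) {s : ℕ}
    {S : ℕ → Finset ℤ} (hS : IsCircuit s S) {i : ℕ} (hi : i < s)
    (hA : ∀ z ∈ S i, ∃ a ∈ A, (a : ℤ) = z) :
    (S i).card ≤ (3 * s) ^ k * 18 ^ (k ^ 2) := by
  by_contra hlt
  push Not at hlt
  obtain ⟨c, l, -, hl, hs⟩ := exists_cube_of_circuit hS hi hlt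
  obtain ⟨n, hn⟩ := cube_rep (A := A) (c := c) (l := l) (fun z hz => hA z (hs hz))
  have h2 := hg n
  omega

end Pool.Agent.Helper82.CF
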