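import Pool.Agent.Helper82.CF.Cir

/-!
The sharp bound for sumset circuits: a set computed by `s` unions and sumsets without a proper
Hilbert cube of dimension `k + 1` has at most `(12 (k + 1) (4 k + 3) s) ^ k` elements.
-/

namespace Pool.Agent.Helper82.CF

open scoped Pointwise

variable {G : Type*} [AddCommGroup G] [DecidableEq G]

/-! ### Parses with ordered holes -/

/-- `Par d S h P x`: `x` is the sum of an incomplete parse of the gate `h` with the holes `P`
(gates, from left to right). -/
inductive Par (d : ℕ → Gate) (S : ℕ → Finset G) : ℕ → List ℕ → G → Prop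
  | hole (h : ℕ) : Par d S h [h] 0
  | leaf {h : ℕ} {x : G} (hd : d h = .leaf) (hx : x ∈ S h) : Par d S h [] x
  | unl {h j k : ℕ} {P : List ℕ} {x : G} (hd : d h = .un j k) (hx : Par d S j P x) :
      Par d S h P x
  | unr {h j k : ℕ} {P : List ℕ} {x : G} (hd : d h = .un j k) (hx : Par d S k P x) :
      Par d S h P x
  | sum {h j k : ℕ} {P Q : List ℕ} {x y : G} (hd : d h = .sum j k) (hx : Par d S j P x)
      (hy : Par d S k Q y) : Par d S h (P ++ Q) (x + y)

theorem Par.le {s : ℕ} {d : ℕ → Gate} {S : ℕ → Finset G} (hd : ∀ i < s, Fits S i (d i))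
    {h : ℕ} {P : List ℕ} {x : G} (hx : Par d S h P x) (hs : h < s) : ∀ p ∈ P, p ≤ h := by
  induction hx with
  | hole h => simp
  | leaf hdh hx => simp
  | unl hdh hx ih =>
    have hf := hd _ hs
    rw [hdh] at hf
    intro p hp
    exact (ih (hf.1.trans hs) p hp).trans hf.1.le
  | unr hdh hx ih =>
    have hf := hd _ hs
    rw [hdh] at hf
    intro p hp
    exact (ih (hf.2.1.trans hs) p hp).trans hf.2.1.le
  | sum hdh hx hy ih1 ih2 =>
    have hf := hd _ hs
    rw [hdh] at hf
    intro p hp
    rcases List.mem_append.1 hp with hp | hp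
    · exact (ih1 (hf.1.trans hs) p hp).trans hf.1.le
    · exact (ih2 (hf.2.1.trans hs) p hp).trans hf.2.1.le

/-- a gate is a hole of itself only trivially -/
theorem Par.self {s : ℕ} {d : ℕ → Gate} {S : ℕ → Finset G} (hd : ∀ i < s, Fits S i (d i))
    {h : ℕ} {P : List ℕ} {x : G} (hx : Par d S h P x) (hs : h < s) (hh : h ∈ P) : x = 0 := by
  cases hx with
  | hole => rfl
  | leaf hdh hx => simp at hh
  | unl hdh hx =>
    have hf := hd _ hs
    rw [hdh] at hf
    have := hx.le hd (hf.1.trans hs) _ hh
    have := hf.1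
    omega
  | unr hdh hx =>
    have hf := hd _ hs
    rw [hdh] at hf
    have := hx.le hd (hf.2.1.trans hs) _ hh
    have := hf.2.1
    omega
  | sum hdh hx hy =>
    have hf := hd _ hs
    rw [hdh] at hf
    have h1 := hf.1
    have h2 := hf.2.1
    rcases List.mem_append.1 hh with hp | hp
    · have := hx.le hd (h1.trans hs) _ hp
      omega
    · have := hy.le hd (h2.trans hs) _ hp
      omega

theorem Par.mem {s : ℕ} {d : ℕ → Gate} {S : ℕ → Finset G} (hd : ∀ i < s, Fits S i (d i))
    {h : ℕ} {P : List ℕ} {x : G} (hx : Par d S h P x) : h < s → P = [] → x ∈ S h := by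
  induction hx with
  | hole h => intro _ h; simp at h
  | leaf hdh hx => intro _ _; exact hx
  | unl hdh hx ih =>
    intro hs hP
    have hf := hd _ hs
    rw [hdh] at hf
    rw [hf.2.2, Finset.mem_union]
    exact Or.inl (ih (hf.1.trans hs) hP)
  | unr hdh hx ih =>
    intro hs hP
    have hf := hd _ hs
    rw [hdh] at hf
    rw [hf.2.2, Finset.mem_union]
    exact Or.inr (ih (hf.2.1.trans hs) hP)
  | sum hdh hx hy ih1 ih2 =>
    intro hs hP
    have hf := hd _ hs
    rw [hdh] at hf
    rw [List.append_eq_nil_iff] at hP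
    rw [hf.2.2]
    exact Finset.add_mem_add (ih1 (hf.1.trans hs) hP.1) (ih2 (hf.2.1.trans hs) hP.2)

theorem par_of_mem {s : ℕ} {d : ℕ → Gate} {S : ℕ → Finset G} (hd : ∀ i < s, Fits S i (d i)) :
    ∀ h < s, ∀ x ∈ S h, Par d S h [] x := by
  intro h
  induction h using Nat.strong_induction_on with
  | _ h ih =>
    intro hs x hx
    have hf := hd h hs
    cases hdh : d h with
    | leaf => exact Par.leaf hdh hx
    | un j k =>
      rw [hdh] at hf
      obtain ⟨hj, hk, e⟩ := hf
      rw [e, Finset.mem_union] at hx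
      rcases hx with hx | hx
      · exact Par.unl hdh (ih j hj (hj.trans hs) x hx)
      · exact Par.unr hdh (ih k hk (hk.trans hs) x hx)
    | sum j k =>
      rw [hdh] at hf
      obtain ⟨hj, hk, e⟩ := hf
      rw [e, Finset.mem_add] at hx
      obtain ⟨y, hy, z, hz, rfl⟩ := hx
      exact Par.sum hdh (ih j hj (hj.trans hs) y hy) (ih k hk (hk.trans hs) z hz)

omit [DecidableEq G] in
/-- filling a hole -/
theorem Par.subst {d : ℕ → Gate} {S : ℕ → Finset G} {h p : ℕ} {P P' : List ℕ} {y w : G}
    (hy : Par d S h P y) (hw : Par d S p P' w) :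
    ∀ L R : List ℕ, P = L ++ p :: R → Par d S h (L ++ P' ++ R) (y + w) := by
  induction hy with
  | hole h =>
    intro L R e
    have e1 : L = [] ∧ p = h ∧ R = [] := by
      cases L with
      | nil => simp at e; exact ⟨rfl, e.1.symm, e.2⟩
      | cons a L => simp at e
    obtain ⟨rfl, rfl, rfl⟩ := e1
    simpa using hw
  | leaf hdh hx =>
    intro L R e
    simp at e
  | unl hdh hx ih =>
    intro L R e
    exact Par.unl hdh (ih L R e)
  | unr hdh hx ih =>
    intro L R e
    exact Par.unr hdh (ih L R e)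
  | sum hdh hx hy ih1 ih2 =>
    intro L R e
    rcases List.append_eq_append_iff.1 e with ⟨as, e1, e2⟩ | ⟨bs, e1, e2⟩
    · have := Par.sum hdh hx (ih2 as R e2)
      rw [e1, add_assoc]
      simpa [List.append_assoc] using this
    · cases bs with
      | nil =>
        have := Par.sum hdh hx (ih2 [] R (by simpa using e2.symm))
        rw [add_assoc]
        simpa [e1, List.append_assoc] using this
      | cons b bs =>
        rw [List.cons_append, List.cons.injEq] at e2
        obtain ⟨rfl, rfl⟩ := e2
        have := Par.sum hdh (ih1 L bs e1) hy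
        rw [add_right_comm]
        simpa [List.append_assoc] using this

/-! ### Progressions spanned by a list -/

/-- `{∑ n_i h_i : |n_i| ≤ a}` -/
noncomputable def sp (a : ℕ) : List G → Finset G
  | [] => {0}
  | h :: l => (Finset.Icc (-(a : ℤ)) a).image (fun n : ℤ => n • h) + sp a l

theorem sp_card (a : ℕ) (l : List G) : (sp a l).card ≤ (2 * a + 1) ^ l.length := by
  induction l with
  | nil => simp [sp]
  | cons h l ih =>
    rw [sp, List.length_cons, pow_succ, mul_comm]
    refine Finset.card_add_le.trans (Nat.mul_le_mul ?_ ih)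
    refine Finset.card_image_le.trans ?_
    rw [Int.card_Icc]
    omega

theorem zero_mem_sp (a : ℕ) (l : List G) : (0 : G) ∈ sp a l := by
  induction l with
  | nil => simp [sp]
  | cons h l ih =>
    rw [sp, Finset.mem_add]
    exact ⟨0, Finset.mem_image.2 ⟨0, by simp, by simp⟩, 0, ih, by simp⟩

theorem sp_add {a b : ℕ} {l : List G} {x y : G} (hx : x ∈ sp a l) (hy : y ∈ sp b l) :
    x + y ∈ sp (a + b) l := by
  induction l generalizing x y with
  | nil => simp [sp] at *; simp [hx, hy]
  | cons h l ih =>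
    rw [sp, Finset.mem_add] at hx hy ⊢
    obtain ⟨u, hu, v, hv, rfl⟩ := hx
    obtain ⟨u', hu', v', hv', rfl⟩ := hy
    obtain ⟨n, hn, rfl⟩ := Finset.mem_image.1 hu
    obtain ⟨n', hn', rfl⟩ := Finset.mem_image.1 hu'
    rw [Finset.mem_Icc] at hn hn'
    refine ⟨(n + n') • h, Finset.mem_image.2 ⟨n + n', ?_, rfl⟩, v + v', ih hv hv', ?_⟩
    · rw [Finset.mem_Icc]; push_cast; omega
    · rw [add_smul]; abel

theorem sp_neg {a : ℕ} {l : List G} {x : G} (hx : x ∈ sp a l) : -x ∈ sp a l := by
  induction l generalizing x with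
  | nil => simp [sp] at *; simp [hx]
  | cons h l ih =>
    rw [sp, Finset.mem_add] at hx ⊢
    obtain ⟨u, hu, v, hv, rfl⟩ := hx
    obtain ⟨n, hn, rfl⟩ := Finset.mem_image.1 hu
    rw [Finset.mem_Icc] at hn
    refine ⟨(-n) • h, Finset.mem_image.2 ⟨-n, ?_, rfl⟩, -v, ih hv, ?_⟩
    · rw [Finset.mem_Icc]; omega
    · rw [neg_smul]; abel

theorem sp_mono {a b : ℕ} (hab : a ≤ b) {l : List G} {x : G} (hx : x ∈ sp a l) :
    x ∈ sp b l := by
  have := sp_add hx (zero_mem_sp (b - a) l)
  rwa [add_zero, Nat.add_sub_cancel' hab] at this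

theorem sp_cons {a : ℕ} {h : G} {l : List G} {x : G} (hx : x ∈ sp a l) : x ∈ sp a (h :: l) := by
  rw [sp, Finset.mem_add]
  exact ⟨0, Finset.mem_image.2 ⟨0, by simp, by simp⟩, x, hx, by simp⟩

theorem cube_sub {l : List G} {x y : G} (hx : x ∈ cube l) (hy : y ∈ cube l) :
    x - y ∈ sp 1 l := by
  induction l generalizing x y with
  | nil =>
    rw [cube_nil, Finset.mem_singleton] at hx hy
    simp [sp, hx, hy]
  | cons h l ih =>
    rw [cube_cons, Finset.mem_add] at hx hy
    obtain ⟨u, hu, v, hv, rfl⟩ := hx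
    obtain ⟨u', hu', v', hv', rfl⟩ := hy
    rw [sp, Finset.mem_add]
    refine ⟨u - u', ?_, v - v', ih hv hv', by abel⟩
    simp only [Finset.mem_insert, Finset.mem_singleton] at hu hu'
    rw [Finset.mem_image]
    rcases hu with rfl | rfl <;> rcases hu' with rfl | rfl
    · exact ⟨0, by simp, by simp⟩
    · exact ⟨-1, by simp, by simp⟩
    · exact ⟨1, by simp, by simp⟩
    · exact ⟨0, by simp, by simp⟩

/-- adding a new direction to a proper cube -/
theorem cube_cons_card {h : G} {l : List G} (hl : (cube l).card = 2 ^ l.length)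
    (hh : h ∉ sp 1 l) : (cube (h :: l)).card = 2 ^ (h :: l).length := by
  have e1 : cube (h :: l) = cube l ∪ ({h} + cube l) := by
    rw [cube_cons, Finset.insert_eq, Finset.union_add, Finset.singleton_zero, zero_add]
  rw [e1, Finset.card_union_of_disjoint, card_singleton_add, hl, List.length_cons, pow_succ]
  · ring
  · rw [Finset.disjoint_left]
    intro y hy hy'
    rw [Finset.mem_add] at hy'
    obtain ⟨u, hu, z, hz, rfl⟩ := hy'
    rw [Finset.mem_singleton] at hu
    subst hu
    apply hh
    have := cube_sub hy hz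
    simpa using this

/-! ### Stuck sets and pieces -/

/-- all differences lie in the progression spanned by `l` -/
def Stuck (l : List G) (X : G → Prop) : Prop := ∀ x y, X x → X y → y - x ∈ sp 1 l

/-- an element of the gate `h` with holes `P`, made of stuck inputs, with a tag -/
def Piece (d : ℕ → Gate) (S : ℕ → Finset G) (l : List G) (h : ℕ) (P : List ℕ) (t : ℕ)
    (q : G) : Prop :=
  (∃ j k, d h = .un j k ∧ t = 0 ∧ Par d S j P q ∧ Stuck l (Par d S j P)) ∨
  (∃ j k, d h = .un j k ∧ t = 1 ∧ Par d S k P q ∧ Stuck l (Par d S k P)) ∨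
  (∃ j k, d h = .sum j k ∧ t ≤ P.length ∧ ∃ q1 q2, q = q1 + q2 ∧ Par d S j (P.take t) q1 ∧
    Par d S k (P.drop t) q2 ∧ Stuck l (Par d S j (P.take t)) ∧ Stuck l (Par d S k (P.drop t)))

theorem piece_sub {d : ℕ → Gate} {S : ℕ → Finset G} {l : List G} {h : ℕ} {P : List ℕ} {t : ℕ}
    {q q' : G} (hq : Piece d S l h P t q) (hq' : Piece d S l h P t q') : q' - q ∈ sp 2 l := by
  rcases hq with ⟨j, k, e, rfl, h1, h2⟩ | ⟨j, k, e, rfl, h1, h2⟩ |
      ⟨j, k, e, ht, q1, q2, rfl, h1, h2, h3, h4⟩
  · rcases hq' with ⟨j', k', e', -, h1', -⟩ | ⟨j', k', e', h0, -⟩ | ⟨j', k', e', -⟩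
    · rw [e] at e'
      obtain ⟨rfl, rfl⟩ := Gate.un.inj e'
      exact sp_mono (by norm_num) (h2 _ _ h1 h1')
    · simp at h0
    · rw [e] at e'; simp at e'
  · rcases hq' with ⟨j', k', e', h0, -⟩ | ⟨j', k', e', -, h1', -⟩ | ⟨j', k', e', -⟩
    · simp at h0
    · rw [e] at e'
      obtain ⟨rfl, rfl⟩ := Gate.un.inj e'
      exact sp_mono (by norm_num) (h2 _ _ h1 h1')
    · rw [e] at e'; simp at e'
  · rcases hq' with ⟨j', k', e', -⟩ | ⟨j', k', e', -⟩ |
      ⟨j', k', e', ht', q1', q2', rfl, h1', h2', -⟩
    · rw [e] at e'; simp at e'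
    · rw [e] at e'; simp at e'
    · rw [e] at e'
      obtain ⟨rfl, rfl⟩ := Gate.sum.inj e'
      have := sp_add (h3 _ _ h1 h1') (h4 _ _ h2 h2')
      rw [show q1' + q2' - (q1 + q2) = (q1' - q1) + (q2' - q2) by abel]
      exact this

/-- **The step.** -/
theorem Par.decomp {s : ℕ} {d : ℕ → Gate} {S : ℕ → Finset G} (hd : ∀ i < s, Fits S i (d i))
    {l : List G} {h : ℕ} {P : List ℕ} {y : G} (hy : Par d S h P y) :
    h < s → ¬ Stuck l (Par d S h P) →
      ∃ (L P' R : List ℕ) (h' t : ℕ) (y1 q : G), P = L ++ P' ++ R ∧ y = y1 + q ∧ h' < s ∧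
        Par d S h (L ++ h' :: R) y1 ∧ ¬ Stuck l (Par d S h' P') ∧ t < P'.length + 2 ∧
        Piece d S l h' P' t q := by
  induction hy with
  | hole h =>
    intro hs hno
    exfalso
    apply hno
    intro x y hx hy
    rw [hx.self hd hs (by simp), hy.self hd hs (by simp), sub_zero]
    exact zero_mem_sp _ _
  | leaf hdh hx =>
    intro hs hno
    exfalso
    apply hno
    intro x y hx hy
    have hf := hd _ hs
    rw [hdh] at hf
    have h1 := hx.mem hd hs rfl
    have h2 := hy.mem hd hs rfl
    rw [Finset.card_le_one.1 hf _ h1 _ h2, sub_self]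
    exact zero_mem_sp _ _
  | @unl h j k P x hdh hx ih =>
    intro hs hno
    have hf := hd _ hs
    rw [hdh] at hf
    by_cases hst : Stuck l (Par d S j P)
    · exact ⟨[], P, [], h, 0, 0, x, by simp, by simp, hs, Par.hole h, hno, by omega,
        Or.inl ⟨j, k, hdh, rfl, hx, hst⟩⟩
    · obtain ⟨L, P', R, h', t, y1, q, e1, e2, e3, e4, e5, e6, e7⟩ := ih (hf.1.trans hs) hst
      exact ⟨L, P', R, h', t, y1, q, e1, e2, e3, Par.unl hdh e4, e5, e6, e7⟩
  | @unr h j k P x hdh hx ih =>
    intro hs hno
    have hf := hd _ hs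
    rw [hdh] at hf
    by_cases hst : Stuck l (Par d S k P)
    · exact ⟨[], P, [], h, 1, 0, x, by simp, by simp, hs, Par.hole h, hno, by omega,
        Or.inr (Or.inl ⟨j, k, hdh, rfl, hx, hst⟩)⟩
    · obtain ⟨L, P', R, h', t, y1, q, e1, e2, e3, e4, e5, e6, e7⟩ := ih (hf.2.1.trans hs) hst
      exact ⟨L, P', R, h', t, y1, q, e1, e2, e3, Par.unr hdh e4, e5, e6, e7⟩
  | @sum h j k P Q x y hdh hx hy ih1 ih2 =>
    intro hs hno
    have hf := hd _ hs
    rw [hdh] at hf
    by_cases hst : Stuck l (Par d S j P)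
    · by_cases hst' : Stuck l (Par d S k Q)
      · refine ⟨[], P ++ Q, [], h, P.length, 0, x + y, by simp, by simp, hs, Par.hole h, hno,
          by rw [List.length_append]; omega,
          Or.inr (Or.inr ⟨j, k, hdh, by rw [List.length_append]; omega, x, y, rfl, ?_, ?_, ?_, ?_⟩)⟩
        · rw [List.take_left]; exact hx
        · rw [List.drop_left]; exact hy
        · rw [List.take_left]; exact hst
        · rw [List.drop_left]; exact hst'
      · obtain ⟨L, P', R, h', t, y1, q, e1, e2, e3, e4, e5, e6, e7⟩ :=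
          ih2 (hf.2.1.trans hs) hst'
        refine ⟨P ++ L, P', R, h', t, x + y1, q, by rw [e1]; simp [List.append_assoc],
          by rw [e2, add_assoc], e3, ?_, e5, e6, e7⟩
        have := Par.sum hdh hx e4
        simpa [List.append_assoc] using this
    · obtain ⟨L, P', R, h', t, y1, q, e1, e2, e3, e4, e5, e6, e7⟩ :=
        ih1 (hf.1.trans hs) hst
      refine ⟨L, P', R ++ Q, h', t, y1 + y, q, by rw [e1]; simp [List.append_assoc],
        by rw [e2, add_right_comm], e3, ?_, e5, e6, e7⟩
      have := Par.sum hdh e4 hy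
      simpa [List.append_assoc] using this

/-! ### The count -/

theorem sum_tags (p : ℕ) :
    ∑ t ∈ Finset.range (p + 1), (t + 2) * 2 ^ (p - t) + (p + 4) = 6 * 2 ^ p := by
  induction p with
  | zero => simp
  | succ p ih =>
    rw [Finset.sum_range_succ]
    have h1 : ∑ t ∈ Finset.range (p + 1), (t + 2) * 2 ^ (p + 1 - t) =
        2 * ∑ t ∈ Finset.range (p + 1), (t + 2) * 2 ^ (p - t) := by
      rw [Finset.mul_sum]
      refine Finset.sum_congr rfl fun t ht => ?_
      rw [Finset.mem_range] at ht
      rw [show p + 1 - t = (p - t) + 1 by omega, pow_succ]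
      ring
    rw [h1, Nat.sub_self, pow_succ 2 p]
    omega

/-- the new cube inside the gate -/
theorem cube_cons_sub {S : Finset G} {l : List G} {c w w' : G}
    (h1 : {c + w} + cube l ⊆ S) (h2 : {c + w'} + cube l ⊆ S) :
    {c + w} + cube ((w' - w) :: l) ⊆ S := by
  intro x hx
  rw [Finset.mem_add] at hx
  obtain ⟨u, hu, v, hv, rfl⟩ := hx
  rw [Finset.mem_singleton] at hu
  subst hu
  rw [cube_cons, Finset.mem_add] at hv
  obtain ⟨e, he, z, hz, rfl⟩ := hv
  simp only [Finset.mem_insert, Finset.mem_singleton] at he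
  rcases he with rfl | rfl
  · apply h1
    rw [Finset.mem_add]
    exact ⟨c + w, Finset.mem_singleton_self _, z, hz, by rw [zero_add]⟩
  · apply h2
    rw [Finset.mem_add]
    exact ⟨c + w', Finset.mem_singleton_self _, z, hz, by abel⟩

/-- the stuck case -/
theorem stuck_card {d : ℕ → Gate} {S : ℕ → Finset G} {g k a : ℕ} {P : List ℕ} {l : List G}
    {t0 : G} {X : Finset G} (hl : l.length ≤ k) (ha : a ≤ 2 * k)
    (hX : ∀ x ∈ X, ∃ y z, Par d S g P y ∧ z ∈ sp a l ∧ x = t0 + y + z)
    (hst : Stuck l (Par d S g P)) : X.card ≤ (4 * k + 3) ^ k := by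
  rcases X.eq_empty_or_nonempty with rfl | ⟨x0, hx0⟩
  · simp
  · obtain ⟨y0, z0, hy0, -, -⟩ := hX x0 hx0
    have hsub : X ⊆ {t0 + y0} + sp (a + 1) l := by
      intro x hx
      obtain ⟨y, z, hy, hz, rfl⟩ := hX x hx
      rw [Finset.mem_add]
      refine ⟨t0 + y0, Finset.mem_singleton_self _, z + (y - y0), ?_, by abel⟩
      exact sp_add hz (hst _ _ hy0 hy)
    calc X.card ≤ ({t0 + y0} + sp (a + 1) l).card := Finset.card_le_card hsub
      _ = (sp (a + 1) l).card := card_singleton_add _ _
      _ ≤ (2 * (a + 1) + 1) ^ l.length := sp_card _ _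
      _ ≤ (4 * k + 3) ^ l.length := Nat.pow_le_pow_left (by omega) _
      _ ≤ (4 * k + 3) ^ k := Nat.pow_le_pow_right (by omega) hl

/-- the bound -/
theorem par_card {s k : ℕ} {d : ℕ → Gate} {S : ℕ → Finset G} (hd : ∀ i < s, Fits S i (d i))
    {g : ℕ} (hg : g < s)
    (hno : ∀ (c : G) (l : List G), l.length = k + 1 → (cube l).card = 2 ^ l.length →
      ¬ ({c} + cube l ⊆ S g)) :
    ∀ j ≤ k, ∀ (P : List ℕ) (l : List G) (a : ℕ) (c0 t0 : G) (X : Finset G),
      l.length = k - j → P.length ≤ k - j → a + 2 * j ≤ 2 * k →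
      (cube l).card = 2 ^ l.length → (∀ y, Par d S g P y → {c0 + y} + cube l ⊆ S g) →
      (∀ x ∈ X, ∃ y z, Par d S g P y ∧ z ∈ sp a l ∧ x = t0 + y + z) →
      X.card ≤ (12 * (k + 1) * s) ^ j * 2 ^ P.length * (4 * k + 3) ^ k := by
  classical
  intro j
  induction j with
  | zero =>
    intro hj P l a c0 t0 X hl hP ha hcube hinv hX
    have hst : Stuck l (Par d S g P) := by
      intro y y' hy hy'
      by_contra hno'
      apply hno (c0 + y) ((y' - y) :: l) (by rw [List.length_cons, hl, Nat.sub_zero])
        (cube_cons_card hcube hno')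
      exact cube_cons_sub (hinv y hy) (hinv y' hy')
    have h1 := stuck_card (k := k) (by omega) (by omega) hX hst
    calc X.card ≤ (4 * k + 3) ^ k := h1
      _ = 1 * 1 * (4 * k + 3) ^ k := by ring
      _ ≤ _ := by
        refine Nat.mul_le_mul_right _ (Nat.mul_le_mul ?_ Nat.one_le_two_pow)
        rw [pow_zero]
  | succ j ih =>
    intro hj P l a c0 t0 X hl hP ha hcube hinv hX
    have hs1 : 1 ≤ s := by omega
    by_cases hst : Stuck l (Par d S g P)
    · have h1 := stuck_card (k := k) (by omega) (by omega) hX hst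
      calc X.card ≤ (4 * k + 3) ^ k := h1
        _ = 1 * 1 * (4 * k + 3) ^ k := by ring
        _ ≤ _ := by
          refine Nat.mul_le_mul_right _ (Nat.mul_le_mul ?_ Nat.one_le_two_pow)
          exact Nat.one_le_pow _ _ (Nat.mul_pos (by omega) (by omega))
    · set p := P.length with hp
      set C := (12 * (k + 1) * s) ^ j * (4 * k + 3) ^ k with hC
      let Q : ℕ → ℕ → ℕ → ℕ → G → Prop := fun a1 t1 h' t x =>
        a1 + t1 ≤ p ∧ ¬ Stuck l (Par d S h' ((P.drop a1).take t1)) ∧
        ∃ y1 q z, Par d S g (P.take a1 ++ h' :: (P.drop a1).drop t1) y1 ∧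
          Piece d S l h' ((P.drop a1).take t1) t q ∧ z ∈ sp a l ∧ x = t0 + (y1 + q) + z
      have hclass : ∀ a1 t1 h' t, (X.filter (Q a1 t1 h' t)).card ≤ C * 2 ^ (p - t1 + 1) := by
        intro a1 t1 h' t
        rcases (X.filter (Q a1 t1 h' t)).eq_empty_or_nonempty with he | ⟨x0, hx0⟩
        · rw [he]; simp
        · obtain ⟨-, hle, hns, y0, q0, z0, -, hq0, -, -⟩ := Finset.mem_filter.1 hx0
          have hP' : P = P.take a1 ++ (P.drop a1).take t1 ++ (P.drop a1).drop t1 := by
            rw [List.append_assoc, List.take_append_drop, List.take_append_drop]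
          rw [Stuck] at hns
          push Not at hns
          obtain ⟨w, w', hw, hw', hww⟩ := hns
          have hlen : (P.take a1 ++ h' :: (P.drop a1).drop t1).length = p - t1 + 1 := by
            rw [List.length_append, List.length_cons, List.length_take, List.length_drop,
              List.length_drop]
            omega
          have := ih (by omega) (P.take a1 ++ h' :: (P.drop a1).drop t1) ((w' - w) :: l)
            (a + 2) (c0 + w) (t0 + q0) (X.filter (Q a1 t1 h' t))
            (by rw [List.length_cons, hl]; omega) (by rw [hlen]; omega) (by omega)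
            (cube_cons_card hcube hww) ?_ ?_
          · rw [hlen] at this
            refine this.trans (le_of_eq ?_)
            rw [hC]
            ring
          · intro y hy
            have h1 := hinv (y + w) (by
              conv_lhs => rw [hP']
              exact hy.subst hw _ _ rfl)
            have h2 := hinv (y + w') (by
              conv_lhs => rw [hP']
              exact hy.subst hw' _ _ rfl)
            rw [show c0 + w + y = (c0 + y) + w by abel]
            apply cube_cons_sub
            · rwa [add_assoc]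
            · rwa [add_assoc]
          · intro x hx
            obtain ⟨-, -, -, y1, q, z, hy1, hq, hz, rfl⟩ := Finset.mem_filter.1 hx
            refine ⟨y1, z + (q - q0), hy1, sp_cons (sp_add hz (piece_sub hq0 hq)), by abel⟩
      have hcover : X ⊆ (Finset.range (p + 1)).biUnion fun a1 =>
          (Finset.range (p + 1)).biUnion fun t1 => (Finset.range s).biUnion fun h' =>
          (Finset.range (t1 + 2)).biUnion fun t => X.filter (Q a1 t1 h' t) := by
        intro x hx
        obtain ⟨y, z, hy, hz, e⟩ := hX x hx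
        obtain ⟨L, P', R, h', t, y1, q, e1, e2, e3, e4, e5, e6, e7⟩ :=
          hy.decomp hd hg hst
        have hpl : p = L.length + P'.length + R.length := by
          rw [hp, e1, List.length_append, List.length_append]
        have t1 : P.take L.length = L := by
          rw [e1, List.append_assoc, List.take_left]
        have t2 : P.drop L.length = P' ++ R := by
          rw [e1, List.append_assoc, List.drop_left]
        have t3 : (P.drop L.length).take P'.length = P' := by
          rw [t2, List.take_left]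
        have t4 : (P.drop L.length).drop P'.length = R := by
          rw [t2, List.drop_left]
        simp only [Finset.mem_biUnion, Finset.mem_range]
        refine ⟨L.length, by omega, P'.length, by omega, h', e3, t, e6, ?_⟩
        rw [Finset.mem_filter]
        refine ⟨hx, by omega, ?_, y1, q, z, ?_, ?_, hz, by rw [e, e2]⟩
        · rw [t3]; exact e5
        · rw [t1, t4]; exact e4
        · rw [t3]; exact e7
      have hsum : X.card ≤ ∑ a1 ∈ Finset.range (p + 1), ∑ t1 ∈ Finset.range (p + 1),
          s * ((t1 + 2) * (C * 2 ^ (p - t1 + 1))) := by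
        refine (Finset.card_le_card hcover).trans (Finset.card_biUnion_le.trans ?_)
        refine Finset.sum_le_sum fun a1 _ => Finset.card_biUnion_le.trans ?_
        refine Finset.sum_le_sum fun t1 _ => Finset.card_biUnion_le.trans ?_
        calc ∑ h' ∈ Finset.range s, ((Finset.range (t1 + 2)).biUnion
              fun t => X.filter (Q a1 t1 h' t)).card
            ≤ ∑ h' ∈ Finset.range s, ((t1 + 2) * (C * 2 ^ (p - t1 + 1))) := by
              refine Finset.sum_le_sum fun h' _ => Finset.card_biUnion_le.trans ?_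
              calc ∑ t ∈ Finset.range (t1 + 2), (X.filter (Q a1 t1 h' t)).card
                  ≤ ∑ t ∈ Finset.range (t1 + 2), (C * 2 ^ (p - t1 + 1)) :=
                    Finset.sum_le_sum fun t _ => hclass a1 t1 h' t
                _ = _ := by rw [Finset.sum_const, Finset.card_range, smul_eq_mul]
          _ = _ := by rw [Finset.sum_const, Finset.card_range, smul_eq_mul]
      have hin : ∑ t1 ∈ Finset.range (p + 1), s * ((t1 + 2) * (C * 2 ^ (p - t1 + 1))) =
          2 * s * C * ∑ t1 ∈ Finset.range (p + 1), (t1 + 2) * 2 ^ (p - t1) := by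
        rw [Finset.mul_sum]
        refine Finset.sum_congr rfl fun t _ => ?_
        rw [pow_succ]
        ring
      rw [hin, Finset.sum_const, Finset.card_range, smul_eq_mul] at hsum
      have htag := sum_tags p
      calc X.card ≤ (p + 1) * (2 * s * C * ∑ t1 ∈ Finset.range (p + 1),
            (t1 + 2) * 2 ^ (p - t1)) := hsum
        _ ≤ (k + 1) * (2 * s * C * (6 * 2 ^ p)) := by
          refine Nat.mul_le_mul (by omega) (Nat.mul_le_mul_left _ (by omega))
        _ = (12 * (k + 1) * s) ^ (j + 1) * 2 ^ p * (4 * k + 3) ^ k := by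
          rw [hC, pow_succ]
          ring

/-- **The sharp bound for circuits.** A set computed by `s` unions and sumsets without a proper
Hilbert cube of dimension `k + 1` has at most `(12 (k + 1) (4 k + 3) s) ^ k` elements. -/
theorem circuit_card {s k : ℕ} {S : ℕ → Finset G} (hS : IsCircuit s S) {i : ℕ} (hi : i < s)
    (hno : ∀ (c : G) (l : List G), l.length = k + 1 → (cube l).card = 2 ^ l.length →
      ¬ ({c} + cube l ⊆ S i)) :
    (S i).card ≤ (12 * (k + 1) * (4 * k + 3) * s) ^ k := by
  obtain ⟨d, hd⟩ := hS.exists_fits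
  have h := par_card hd hi hno k le_rfl [] [] 0 0 0 (S i) (by simp) (by simp) (by omega)
    (by simp [cube_nil]) ?_ ?_
  · refine h.trans (le_of_eq ?_)
    rw [List.length_nil, pow_zero, mul_one, ← mul_pow]
    congr 1
    ring
  · intro y hy
    rw [cube_nil, zero_add, Finset.singleton_add_singleton, add_zero]
    exact Finset.singleton_subset_iff.2 (hy.mem hd hi rfl)
  · intro x hx
    exact ⟨x, 0, par_of_mem hd i hi x hx, by simp [sp], by simp⟩

end Pool.Agent.Helper82.CF
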