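import Mathlib
import Pool.Agent.Helper82.CF.Cir
import Pool.Agent.Helper29.CC.Choice
import Pool.Agent.Helper47.CF.Sharp

/-!
MP_12a1af_nt (Erdős–Turán): how many unions and sumsets are needed for a set with bounded
representation function.
-/

namespace Pool.Agent.Helper82.CF.SumsetCircuits

open Pool.Agent.Helper82.CF

/-- `rep A n` is the number of ordered pairs `(a, b) ∈ A × A` with `a + b = n`;
`IsCircuit s S`: each of the finite sets `S 0, ..., S (s-1)` is a single point or the union or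
the sumset of two earlier ones.

(1) Let `r_A(n) < 2 ^ (k + 1)` for all `n ≤ 2 x`.  If a circuit of `s` sets of integers computes a
set of elements of `A` below `x`, this set has at most `(3 s) ^ k * 18 ^ (k ^ 2)` elements.
(2) If a circuit of `s` subsets of `ℤ × ℤ` computes a set of pairs of elements of `A` below `x`,
this set has at most `((3 s) ^ k * 18 ^ (k ^ 2)) ^ 2` elements; in particular if it contains for
every `n` in `[t, x)` a pair with sum `n`, then `x - t` is at most this number.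
(3) The exponent `k` in (1) is optimal for each `k`, even for sets in `[0, x)` with
`√x / 2 ^ k` elements: for all `k` and all primes `p` a circuit of at most `2 k p + 1` sets computes
a set of `p ^ k` integers in `[0, (4 p ^ 2) ^ k)` whose representation function is at most
`2 ^ k`. -/
theorem result :
    (∀ (A : Set ℕ) (k x : ℕ), (∀ n ≤ 2 * x, rep A n < 2 ^ (k + 1)) →
      (∀ (s : ℕ) (S : ℕ → Finset ℤ), IsCircuit s S → ∀ i < s,
        (∀ z ∈ S i, ∃ a ∈ A, a ≤ x ∧ (a : ℤ) = z) →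
        (S i).card ≤ (3 * s) ^ k * 18 ^ (k ^ 2)) ∧
      (∀ (s : ℕ) (T : ℕ → Finset (ℤ × ℤ)), IsCircuit s T → ∀ i < s,
        (∀ z ∈ T i, ∃ a ∈ A, ∃ b ∈ A, a ≤ x ∧ b ≤ x ∧ z = ((a : ℤ), (b : ℤ))) →
        (T i).card ≤ ((3 * s) ^ k * 18 ^ (k ^ 2)) ^ 2 ∧
        ∀ t : ℕ, (∀ n : ℕ, t ≤ n → n < x → ∃ z ∈ T i, z.1 + z.2 = (n : ℤ)) →
          x - t ≤ ((3 * s) ^ k * 18 ^ (k ^ 2)) ^ 2)) ∧
    (∀ k p : ℕ, p.Prime → ∃ (s : ℕ) (S : ℕ → Finset ℤ) (i : ℕ), s ≤ 2 * k * p + 1 ∧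
      IsCircuit s S ∧ i < s ∧ (S i).card = p ^ k ∧
      (∀ z ∈ S i, 0 ≤ z ∧ z < (4 * (p : ℤ) ^ 2) ^ k) ∧
      ∀ n, rep {a : ℕ | (a : ℤ) ∈ S i} n ≤ 2 ^ k) := by
  refine ⟨fun A k x hA => ⟨fun s S hS i hi h => ?_, fun s T hT i hi h => ?_⟩, fun k p hp => ?_⟩
  · exact Pool.Agent.Helper29.CC.circuits_local hA hS hi h
  · have h' : ∀ z ∈ T i, (∃ a ∈ A, a ≤ x ∧ (a : ℤ) = z.1) ∧ ∃ b ∈ A, b ≤ x ∧ (b : ℤ) = z.2 := by
      intro z hz
      obtain ⟨a, ha, b, hb, hax, hbx, rfl⟩ := h z hz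
      exact ⟨⟨a, ha, hax, rfl⟩, b, hb, hbx, rfl⟩
    exact ⟨Pool.Agent.Helper29.CC.choice_card hA hT hi h',
      fun t ht => Pool.Agent.Helper29.CC.choice_cover hA hT hi h' ht⟩
  · exact Pool.Agent.Helper47.CF.sharp k p hp

end Pool.Agent.Helper82.CF.SumsetCircuits
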