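import Mathlib
import Pool.Agent.Helper82.CF.ParA
import Pool.Agent.Helper29.RC.Robust
import Pool.Agent.Helper47.CF.Sharp

/-!
MP_12a1af_nt (Erdős–Turán): how many unions and sumsets are needed for a set with bounded
representation function.
-/

namespace Pool.Agent.Helper82.CF.SumsetCircuitsV2

open Pool.Agent.Helper82.CF

/-- `rep A n` is the number of ordered pairs `(a, b) ∈ A × A` with `a + b = n`;
`IsCircuit s S`: each of the finite sets `S 0, ..., S (s-1)` is a single point or the union or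
the sumset of two earlier ones.

For each `k` there is `C` such that for all `A` and `x` with `r_A(n) < 2 ^ (k + 1)` for `n ≤ 2 x`:
(1) If a circuit of `s` sets of integers computes a set of elements of `A` up to `x`, this set has
at most `M = (12 (k + 1) (4 k + 3) s) ^ k` elements.  If a circuit of `s` subsets of `ℤ × ℤ`
computes a set of pairs of elements of `A` up to `x`, it has at most `M ^ 2` elements, so
`x - t ≤ M ^ 2` if it contains for every `n` in `[t, x)` a pair with sum `n`.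
(2) If a circuit of `s` sets of integers computes a set `S`, then at most `C s |S| ^ (1 - 1/C)`
elements of `A` up to `x` are in `S`.  If a circuit of `s` subsets of `ℤ × ℤ` computes a set `T`,
then at most `C s |T| ^ (1 - 1/C)` numbers are sums `a + b` with `(a, b) ∈ T` and `a, b` elements
of `A` up to `x`.
(3) The exponent `k` in (1) is optimal for each `k`, even for sets in `[0, x)` with
`√x / 2 ^ k` elements: for all `k` and all primes `p` a circuit of at most `2 k p + 1` sets computes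
a set of `p ^ k` integers in `[0, (4 p ^ 2) ^ k)` whose representation function is at most
`2 ^ k`. -/
theorem result :
    (∀ k : ℕ, ∃ C : ℝ, 1 ≤ C ∧ ∀ (A : Set ℕ) (x : ℕ), (∀ n ≤ 2 * x, rep A n < 2 ^ (k + 1)) →
      ((∀ (s : ℕ) (S : ℕ → Finset ℤ), IsCircuit s S → ∀ i < s,
        (∀ z ∈ S i, ∃ a ∈ A, a ≤ x ∧ (a : ℤ) = z) →
        (S i).card ≤ (12 * (k + 1) * (4 * k + 3) * s) ^ k) ∧
      (∀ (s : ℕ) (T : ℕ → Finset (ℤ × ℤ)), IsCircuit s T → ∀ i < s,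
        (∀ z ∈ T i, ∃ a ∈ A, ∃ b ∈ A, a ≤ x ∧ b ≤ x ∧ z = ((a : ℤ), (b : ℤ))) →
        (T i).card ≤ ((12 * (k + 1) * (4 * k + 3) * s) ^ k) ^ 2 ∧
        ∀ t : ℕ, (∀ n : ℕ, t ≤ n → n < x → ∃ z ∈ T i, z.1 + z.2 = (n : ℤ)) →
          x - t ≤ ((12 * (k + 1) * (4 * k + 3) * s) ^ k) ^ 2)) ∧
      (∀ (s : ℕ) (S : ℕ → Finset ℤ), IsCircuit s S → ∀ i < s,
        (({a : ℕ | a ∈ A ∧ a ≤ x ∧ (a : ℤ) ∈ S i} : Set ℕ).ncard : ℝ) ≤
          C * s * ((S i).card : ℝ) ^ (1 - 1 / C)) ∧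
      (∀ (s : ℕ) (T : ℕ → Finset (ℤ × ℤ)), IsCircuit s T → ∀ i < s,
        (({n : ℕ | ∃ a ∈ A, ∃ b ∈ A, a ≤ x ∧ b ≤ x ∧ a + b = n ∧ ((a : ℤ), (b : ℤ)) ∈ T i} :
          Set ℕ).ncard : ℝ) ≤ C * s * ((T i).card : ℝ) ^ (1 - 1 / C))) ∧
    (∀ k p : ℕ, p.Prime → ∃ (s : ℕ) (S : ℕ → Finset ℤ) (i : ℕ), s ≤ 2 * k * p + 1 ∧
      IsCircuit s S ∧ i < s ∧ (S i).card = p ^ k ∧
      (∀ z ∈ S i, 0 ≤ z ∧ z < (4 * (p : ℤ) ^ 2) ^ k) ∧
      ∀ n, rep {a : ℕ | (a : ℤ) ∈ S i} n ≤ 2 ^ k) := by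
  refine ⟨fun k => ?_, fun k p hp => Pool.Agent.Helper47.CF.sharp k p hp⟩
  obtain ⟨C, hC, h⟩ := Pool.Agent.Helper29.RC.robust k
  refine ⟨C, hC, fun A x hA => ?_⟩
  obtain ⟨h1, -, h2⟩ := h A x hA
  refine ⟨⟨fun s S hS i hi hz => circuits_sharp hA hS hi hz, fun s T hT i hi hz => ?_⟩, h1, h2⟩
  exact ⟨choice_sharp hA hT hi hz, fun t ht => cover_sharp hA hT hi hz ht⟩

end Pool.Agent.Helper82.CF.SumsetCircuitsV2
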