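import Mathlib
import Pool.Agent.Helper82.CF.ParA
import Pool.Agent.Helper29.RC.Robust
import Pool.Agent.Helper47.CF.Sharp
import Pool.Agent.Helper79.TY.Rate

/-!
MP_12a1af_nt (Erdős–Turán): how many unions and sumsets are needed for a set with small
representation function.
-/

namespace Pool.Agent.Helper82.CF.SumsetCircuitsV3

open Pool.Agent.Helper82.CF

/-- `rep A n` is the number of ordered pairs `(a, b) ∈ A × A` with `a + b = n`;
`IsCircuit s S`: each of the finite sets `S 0, ..., S (s-1)` is a single point or the union or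
the sumset of two earlier ones.

Let `A` be a set of natural numbers and `x` a natural number.
(1) If a circuit of `s` sets of integers computes a set `S` of elements of `A` up to `x`, then
`r_A(n) ≥ |S| ^ (1 / (16 log (s + 1)))` for some `n ≤ 2 x`, and if `r_A(n) < 2 ^ (k + 1)` for all
`n ≤ 2 x`, then `|S| ≤ (12 (k + 1) (4 k + 3) s) ^ k`.
(2) If a circuit of `s` subsets of `ℤ × ℤ` computes a set `T` of pairs of elements of `A` up to
`x`, the same holds with the square root of `|T|` in place of `|S|`.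
(3) For each `k` there is `C`, independent of `A` and `x`, such that if `r_A(n) < 2 ^ (k + 1)` for
all `n ≤ 2 x`: if a circuit of `s` sets of integers computes a set `S`, then at most
`C s |S| ^ (1 - 1/C)` elements of `A` up to `x` are in `S`; if a circuit of `s` subsets of `ℤ × ℤ`
computes a set `T`, then at most `C s |T| ^ (1 - 1/C)` numbers are sums `a + b` with `(a, b) ∈ T`
and `a, b` elements of `A` up to `x`.
(4) The exponent `k` in (1) is optimal for each `k`, even for sets in `[0, x)` with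
`√x / 2 ^ k` elements: for all `k` and all primes `p` a circuit of at most `2 k p + 1` sets computes
a set of `p ^ k` integers in `[0, (4 p ^ 2) ^ k)` whose representation function is at most
`2 ^ k`. -/
theorem result :
    (∀ (A : Set ℕ) (x s : ℕ) (S : ℕ → Finset ℤ), IsCircuit s S → ∀ i < s,
      (∀ z ∈ S i, ∃ a ∈ A, a ≤ x ∧ (a : ℤ) = z) →
      (∃ n ≤ 2 * x, ((S i).card : ℝ) ^ (1 / (16 * Real.log (s + 1))) ≤ rep A n) ∧
      ∀ k : ℕ, (∀ n ≤ 2 * x, rep A n < 2 ^ (k + 1)) →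
        (S i).card ≤ (12 * (k + 1) * (4 * k + 3) * s) ^ k) ∧
    (∀ (A : Set ℕ) (x s : ℕ) (T : ℕ → Finset (ℤ × ℤ)), IsCircuit s T → ∀ i < s,
      (∀ z ∈ T i, ∃ a ∈ A, ∃ b ∈ A, a ≤ x ∧ b ≤ x ∧ z = ((a : ℤ), (b : ℤ))) →
      (∃ n ≤ 2 * x, (√((T i).card : ℝ)) ^ (1 / (16 * Real.log (s + 1))) ≤ rep A n) ∧
      ∀ k : ℕ, (∀ n ≤ 2 * x, rep A n < 2 ^ (k + 1)) →
        √((T i).card : ℝ) ≤ (12 * (k + 1) * (4 * k + 3) * s) ^ k) ∧
    (∀ k : ℕ, ∃ C : ℝ, 1 ≤ C ∧ ∀ (A : Set ℕ) (x : ℕ), (∀ n ≤ 2 * x, rep A n < 2 ^ (k + 1)) →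
      (∀ (s : ℕ) (S : ℕ → Finset ℤ), IsCircuit s S → ∀ i < s,
        (({a : ℕ | a ∈ A ∧ a ≤ x ∧ (a : ℤ) ∈ S i} : Set ℕ).ncard : ℝ) ≤
          C * s * ((S i).card : ℝ) ^ (1 - 1 / C)) ∧
      (∀ (s : ℕ) (T : ℕ → Finset (ℤ × ℤ)), IsCircuit s T → ∀ i < s,
        (({n : ℕ | ∃ a ∈ A, ∃ b ∈ A, a ≤ x ∧ b ≤ x ∧ a + b = n ∧ ((a : ℤ), (b : ℤ)) ∈ T i} :
          Set ℕ).ncard : ℝ) ≤ C * s * ((T i).card : ℝ) ^ (1 - 1 / C))) ∧
    (∀ k p : ℕ, p.Prime → ∃ (s : ℕ) (S : ℕ → Finset ℤ) (i : ℕ), s ≤ 2 * k * p + 1 ∧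
      IsCircuit s S ∧ i < s ∧ (S i).card = p ^ k ∧
      (∀ z ∈ S i, 0 ≤ z ∧ z < (4 * (p : ℤ) ^ 2) ^ k) ∧
      ∀ n, rep {a : ℕ | (a : ℤ) ∈ S i} n ≤ 2 ^ k) := by
  refine ⟨fun A x s S hS i hi hz => ⟨?_, fun k hk => circuits_sharp hk hS hi hz⟩,
    fun A x s T hT i hi hz => ⟨?_, fun k hk => ?_⟩, fun k => ?_,
    fun k p hp => Pool.Agent.Helper47.CF.sharp k p hp⟩
  · obtain ⟨n, hn, h⟩ := Pool.Agent.Helper79.TY.rate A x s S i hS hi hz
    refine ⟨n, hn, ?_⟩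
    rwa [← div_div]
  · obtain ⟨n, hn, h⟩ := Pool.Agent.Helper79.TY.rate_pairs A x s T i hT hi hz
    refine ⟨n, hn, ?_⟩
    rw [Real.sqrt_eq_rpow, ← Real.rpow_mul (by positivity)]
    have e : (1 : ℝ) / 2 * (1 / (16 * Real.log (s + 1))) = 1 / 32 / Real.log (s + 1) := by
      rw [div_mul_div_comm, div_div, one_mul]
      ring_nf
    rwa [e]
  · have h := choice_sharp hk hT hi hz
    rw [Real.sqrt_le_left (by positivity)]
    exact_mod_cast h
  · obtain ⟨C, hC, h⟩ := Pool.Agent.Helper29.RC.robust k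
    refine ⟨C, hC, fun A x hA => ?_⟩
    obtain ⟨h1, -, h2⟩ := h A x hA
    exact ⟨h1, h2⟩

end Pool.Agent.Helper82.CF.SumsetCircuitsV3
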